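import Mathlib
import Pool.Agent.H964.CW.Stm
import Pool.Agent.H199.QC.MEAS
import Pool.Agent.H230.QC.IND

/-! Task CW-DZB (project of helper964): basic properties of the fields with drift and killing. -/

set_option autoImplicit false

open MeasureTheory ProbabilityTheory Filter Finset

namespace Pool.Agent.H661.CW

open Pool.Agent.H964.QC Pool.Agent.H964.CW

variable {C0 : ℝ} {N0 M : ℕ} [NeZero M]

theorem sg_abs {M : ℕ} (u : ZMod M) : |sg u| = 1 := by
  unfold sg
  split_ifs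
  · exact abs_one
  · rw [abs_neg, abs_one]

theorem one_add_mul_sg_nonneg {M : ℕ} {a : ℝ} (ha : |a| ≤ 1) (u : ZMod M) : 0 ≤ 1 + a * sg u := by
  have h1 : |a * sg u| ≤ 1 := by
    rw [abs_mul, sg_abs, mul_one]
    exact ha
  have h2 := (abs_le.1 h1).1
  linarith

theorem ka_nonneg (W : Wlk (ZMod M × ZMod M) C0 N0) {a : ℝ} (ha : |a| ≤ 1)
    (y z : ZMod M × ZMod M) : 0 ≤ ka W a y z :=
  mul_nonneg (W.K_nonneg _ _ _) (one_add_mul_sg_nonneg ha _)

theorem dz_succ (W : Wlk (ZMod M × ZMod M) C0 N0) (A : ℕ → ℝ) (χ x : ℕ → ZMod M × ZMod M → ℝ)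
    (j : ℕ) (y : ZMod M × ZMod M) :
    dz W A χ x (j + 1) y =
      ∑ z, ka W (A (j + 1)) y z * χ j z * ((1 + x (j + 1) z) * dz W A χ x j z) := rfl

theorem dz_nonneg (W : Wlk (ZMod M × ZMod M) C0 N0) {A : ℕ → ℝ} {χ x : ℕ → ZMod M × ZMod M → ℝ}
    (hA : ∀ j, |A j| ≤ 1) (h0 : ∀ j z, 0 ≤ χ j z) (hx : ∀ n v, -1 < x n v) :
    ∀ (j : ℕ) (y : ZMod M × ZMod M), 0 ≤ dz W A χ x j y := by
  intro j
  induction j with
  | zero => intro y; exact zero_le_one
  | succ j ih =>
    intro y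
    rw [dz_succ]
    refine Finset.sum_nonneg fun z _ => ?_
    refine mul_nonneg (mul_nonneg (ka_nonneg W (hA _) _ _) (h0 _ _)) (mul_nonneg ?_ (ih z))
    have := hx (j + 1) z
    linarith

theorem dz_mono (W : Wlk (ZMod M × ZMod M) C0 N0) {A : ℕ → ℝ} {χ x : ℕ → ZMod M × ZMod M → ℝ}
    (hA : ∀ j, |A j| ≤ 1) (h0 : ∀ j z, 0 ≤ χ j z) (h1 : ∀ j z, χ j z ≤ 1)
    (hx : ∀ n v, -1 < x n v) :
    ∀ (j : ℕ) (y : ZMod M × ZMod M), dz W A χ x j y ≤ dz W A (fun _ _ => 1) x j y := by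
  intro j
  induction j with
  | zero => intro y; exact le_refl _
  | succ j ih =>
    intro y
    rw [dz_succ, dz_succ]
    refine Finset.sum_le_sum fun z _ => ?_
    have hk := ka_nonneg W (hA (j + 1)) y z
    have hx1 : 0 ≤ 1 + x (j + 1) z := by
      have := hx (j + 1) z
      linarith
    have hd := dz_nonneg W hA h0 hx j z
    refine mul_le_mul ?_ (mul_le_mul_of_nonneg_left (ih z) hx1) (mul_nonneg hx1 hd) ?_
    · exact mul_le_mul_of_nonneg_left (h1 j z) hk
    · show 0 ≤ ka W (A (j + 1)) y z * 1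
      rw [mul_one]
      exact hk

theorem dz_meas (W : Wlk (ZMod M × ZMod M) C0 N0) (A : ℕ → ℝ) (χ : ℕ → ZMod M × ZMod M → ℝ) :
    ∀ (j : ℕ) (y : ZMod M × ZMod M),
      Measurable (fun x : ℕ → ZMod M × ZMod M → ℝ => dz W A χ x j y) := by
  intro j
  induction j with
  | zero => intro y; exact measurable_const
  | succ j ih =>
    intro y
    show Measurable (fun x : ℕ → ZMod M × ZMod M → ℝ =>
      ∑ z, ka W (A (j + 1)) y z * χ j z * ((1 + x (j + 1) z) * dz W A χ x j z))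
    refine Finset.measurable_sum _ fun z _ => ?_
    exact (((H199.QC.meas_coord (j + 1) z).const_add 1).mul (ih z)).const_mul _

theorem dz_dep (W : Wlk (ZMod M × ZMod M) C0 N0) (A : ℕ → ℝ) (χ : ℕ → ZMod M × ZMod M → ℝ)
    (x x' : ℕ → ZMod M × ZMod M → ℝ) :
    ∀ (T : ℕ) (y : ZMod M × ZMod M),
    (∀ j z, j < T → χ j z ≠ 0 → x (j + 1) z = x' (j + 1) z) → dz W A χ x T y = dz W A χ x' T y := by
  intro T
  induction T with
  | zero => intro y _; rfl
  | succ T ih =>
    intro y h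
    rw [dz_succ, dz_succ]
    refine Finset.sum_congr rfl fun z _ => ?_
    by_cases hz : χ T z = 0
    · rw [hz]
      ring
    · rw [h T z (Nat.lt_succ_self T) hz, ih z fun j v hj hv => h j v (by omega) hv]

theorem dz_cut (W : Wlk (ZMod M × ZMod M) C0 N0) (A : ℕ → ℝ) (χ : ℕ → ZMod M × ZMod M → ℝ)
    (x : ℕ → ZMod M × ZMod M → ℝ) (j : ℕ) (y : ZMod M × ZMod M) :
    dz W A χ (cut j x) j y = dz W A χ x j y := by
  refine dz_dep W A χ _ _ j y fun i z hi _ => ?_
  show (if i + 1 ≤ j then x (i + 1) z else 0) = x (i + 1) z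
  exact if_pos hi

theorem t_DZB : S_DZB := by
  intro C0 N0 M _ W _ A χ hA h0 h1
  refine ⟨fun x hx j y => ⟨dz_nonneg W hA h0 hx j y, dz_mono W hA h0 h1 hx j y⟩,
    dz_meas W A χ, fun x x' T y h => dz_dep W A χ x x' T y h, ?_⟩
  intro Ω _ P _ s2 κ η hη
  have hind := H230.QC.t_IND (ZMod M × ZMod M) Ω P s2 κ η hη
  have hL : ∀ n v, MemLp (η n v) 4 P := fun n v =>
    (H199.QC.memLp4_iff (hη.meas n v).aestronglyMeasurable).2 (hη.int4 n v)
  have hL1 : ∀ n v, MemLp (fun ω => 1 + η n v ω) 4 P := fun n v =>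
    (memLp_const (1 : ℝ)).add (hL n v)
  have hint1 : ∀ n v, Integrable (fun ω => η n v ω) P := fun n v =>
    (hL n v).integrable (by norm_num)
  have hE1 : ∀ n v, ∫ ω, (1 + η n v ω) ∂P = 1 := by
    intro n v
    rw [integral_add (integrable_const _) (hint1 n v), hη.m1]
    simp
  have hI : ∀ (j : ℕ) (v : ZMod M × ZMod M) (F : (ℕ → ZMod M × ZMod M → ℝ) → ℝ), Measurable F →
      IndepFun (fun ω => 1 + η (j + 1) v ω) (fun ω => F (cut j (cfg η ω))) P := by
    intro j v F hF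
    have h1 := ((hind j).2.1).comp hF
      (((measurable_pi_apply v).const_add 1 :
        Measurable (fun u : ZMod M × ZMod M → ℝ => 1 + u v)))
    exact h1.symm
  have hprod : ∀ (j : ℕ) (v : ZMod M × ZMod M) (F : (ℕ → ZMod M × ZMod M → ℝ) → ℝ),
      Measurable F → MemLp (fun ω => F (cut j (cfg η ω))) 4 P →
      MemLp (fun ω => (1 + η (j + 1) v ω) * F (cut j (cfg η ω))) 4 P ∧
      ∫ ω, (1 + η (j + 1) v ω) * F (cut j (cfg η ω)) ∂P = ∫ ω, F (cut j (cfg η ω)) ∂P := by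
    intro j v F hF hM
    refine ⟨H199.QC.memLp4_mul (hL1 _ _) hM (hI j v F hF), ?_⟩
    have h1 := (hI j v F hF).integral_fun_mul_eq_mul_integral (hL1 (j + 1) v).1 hM.1
    rw [h1, hE1, one_mul]
  intro j
  induction j with
  | zero =>
    intro y
    refine ⟨memLp_const (1 : ℝ), ?_⟩
    show ∫ _ω, (1 : ℝ) ∂P = 1
    simp
  | succ j ih =>
    intro y
    have hc : ∀ z, (fun ω => dz W A χ (cut j (cfg η ω)) j z) =
        fun ω => dz W A χ (cfg η ω) j z := by
      intro z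
      funext ω
      exact dz_cut W A χ (cfg η ω) j z
    have h1 : ∀ z, MemLp (fun ω => (1 + η (j + 1) z ω) * dz W A χ (cfg η ω) j z) 4 P ∧
        ∫ ω, (1 + η (j + 1) z ω) * dz W A χ (cfg η ω) j z ∂P =
          dz W A χ (fun _ _ => 0) j z := by
      intro z
      have h2 := hprod j z (fun x => dz W A χ x j z) (dz_meas W A χ j z) (by
        show MemLp (fun ω => dz W A χ (cut j (cfg η ω)) j z) 4 P
        rw [hc z]; exact (ih z).1)
      have h3 : (fun ω => (1 + η (j + 1) z ω) * (fun x => dz W A χ x j z) (cut j (cfg η ω))) =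
          fun ω => (1 + η (j + 1) z ω) * dz W A χ (cfg η ω) j z := by
        funext ω
        rw [← congrFun (hc z) ω]
      rw [h3] at h2
      refine ⟨h2.1, ?_⟩
      have h4 := h2.2
      have h5 : ∫ ω, (fun x => dz W A χ x j z) (cut j (cfg η ω)) ∂P =
          dz W A χ (fun _ _ => 0) j z := by
        show ∫ ω, dz W A χ (cut j (cfg η ω)) j z ∂P = _
        rw [hc z]; exact (ih z).2
      rw [h5] at h4
      exact h4
    have h6 : (fun ω => dz W A χ (cfg η ω) (j + 1) y) =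
        fun ω => ∑ z, ka W (A (j + 1)) y z * χ j z *
          ((1 + η (j + 1) z ω) * dz W A χ (cfg η ω) j z) := rfl
    rw [h6]
    refine ⟨memLp_finsetSum _ fun z _ => (h1 z).1.const_mul _, ?_⟩
    rw [integral_finsetSum _ fun z _ => ((h1 z).1.const_mul _).integrable (by norm_num)]
    simp_rw [integral_const_mul, (h1 _).2]
    rw [dz_succ]
    refine Finset.sum_congr rfl fun z _ => ?_
    ring

end Pool.Agent.H661.CW
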